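import Pool.Agent.Helper56.TOF.Goals
import Mathlib

/-!
# Project TOF (MP_f32c9c_an), packet CLK: the clock
-/

set_option autoImplicit false

open Set Filter Topology MeasureTheory

open scoped ContDiff

namespace Pool.Agent.Helper64.TOF

open Pool.Agent.Helper56.TOF
open Pool.Agent.Helper30.CIR (ee)

theorem abs_log_le {x : ℝ} (h : |x - 1| ≤ 1 / 2) : |Real.log x| ≤ 2 * |x - 1| := by
  have h1 := abs_le.1 h
  have hx : 1 / 2 ≤ x := by linarith
  have hx0 : 0 < x := by linarith
  rw [abs_le]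
  constructor
  · have h3 := Real.one_sub_inv_le_log_of_pos hx0
    have h2 : -(2 * |x - 1|) ≤ 1 - x⁻¹ := by
      have h4 : 1 - x⁻¹ = (x - 1) / x := by field_simp
      rw [h4, le_div_iff₀ hx0]
      nlinarith [neg_abs_le (x - 1), abs_nonneg (x - 1)]
    linarith
  · have h3 := Real.log_le_sub_one_of_pos hx0
    linarith [le_abs_self (x - 1), abs_nonneg (x - 1)]

theorem norm_ee (t : ℝ) : ‖ee t‖ = 1 := by
  unfold ee
  exact Complex.norm_exp_ofReal_mul_I _

/-- bound of the difference of two initial sums -/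
theorem range_diff (f : ℕ → ℝ) (B : ℝ) (hf : ∀ j, |f j| ≤ B) :
    ∀ i m : ℕ, i ≤ m →
      |∑ j ∈ Finset.range m, f j - ∑ j ∈ Finset.range i, f j| ≤ B * ((m : ℝ) - i) := by
  intro i m him
  rw [← Finset.sum_Ico_eq_sub _ him]
  calc |∑ j ∈ Finset.Ico i m, f j| ≤ ∑ j ∈ Finset.Ico i m, |f j| := Finset.abs_sum_le_sum_abs _ _
    _ ≤ ∑ _j ∈ Finset.Ico i m, B := Finset.sum_le_sum (fun j _ => hf j)
    _ = B * ((m : ℝ) - i) := by
        rw [Finset.sum_const, Nat.card_Ico, nsmul_eq_mul, Nat.cast_sub him]; ring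

theorem norm_bounds {c : ℝ} {w : ℂ} (hc : 0 ≤ c) (hw : ‖w‖ = 1) :
    |‖1 + (c : ℂ) * w‖ - 1| ≤ c := by
  have h1 : ‖(c : ℂ) * w‖ = c := by
    rw [norm_mul, hw, mul_one, Complex.norm_real, Real.norm_eq_abs, abs_of_nonneg hc]
  rw [abs_le]
  constructor
  · have := norm_sub_norm_le (1 : ℂ) (-((c : ℂ) * w))
    rw [norm_neg, h1, norm_one, sub_neg_eq_add] at this
    linarith
  · have := norm_add_le (1 : ℂ) ((c : ℂ) * w)
    rw [h1, norm_one] at this
    linarith

theorem term_bound {c c0 : ℝ} {w : ℂ} (hc : 0 ≤ c) (hcc : c ≤ c0) (hc0 : c0 ≤ 1 / 10)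
    (hw : ‖w‖ = 1) :
    |Real.log (1 - c ^ 2) - 2 * Real.log ‖1 + (c : ℂ) * w‖| ≤ 5 * c0 := by
  have h1 := norm_bounds hc hw
  have h2 : |Real.log ‖1 + (c : ℂ) * w‖| ≤ 2 * |‖1 + (c : ℂ) * w‖ - 1| :=
    abs_log_le (by linarith)
  have h3 : |(1 - c ^ 2) - 1| = c ^ 2 := by
    rw [show (1 - c ^ 2) - 1 = -(c ^ 2) by ring, abs_neg, abs_of_nonneg (sq_nonneg c)]
  have h4 : c ^ 2 ≤ (1 / 10) * c0 := by nlinarith
  have h5 : |Real.log (1 - c ^ 2)| ≤ 2 * c ^ 2 := by
    have := abs_log_le (x := 1 - c ^ 2) (by rw [h3]; nlinarith)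
    rwa [h3] at this
  have h6 := abs_sub (Real.log (1 - c ^ 2)) (2 * Real.log ‖1 + (c : ℂ) * w‖)
  have h7 : |2 * Real.log ‖1 + (c : ℂ) * w‖| = 2 * |Real.log ‖1 + (c : ℂ) * w‖| := by
    rw [abs_mul, abs_of_pos (by norm_num : (0:ℝ) < 2)]
  rw [h7] at h6
  linarith

theorem gCLK : StmtPSI → StmtORB → StmtCLK := by
  rintro ⟨C1, hC1, hpsi⟩ horb
  refine ⟨2 * C1 + 10, by linarith, ?_⟩
  intro z0 Φ Φ' hpair q al c0 a c d hq hal hal' hc0 hc0z hC hline S hS0 hS n
  have hz0 : z0 ≤ 1 / 10 := hpair.pf.le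
  have hc01 : c0 ≤ 1 / 10 := by linarith
  have hC1c : C1 * c0 ≤ 1 / 2 := by nlinarith
  have hal0 : 0 < al := by linarith
  have hq0 : (1 : ℝ) ≤ q := by exact_mod_cast hq
  have hq1 : (0 : ℝ) < q := by linarith
  have hcq : c0 / q ≤ c0 := div_le_self hc0 hq0
  have hcq0 : 0 ≤ c0 / q := div_nonneg hc0 hq1.le
  have horb' := horb z0 Φ Φ' hpair q al c0 a c d hq hal hal' hc0 hc0z hline S hS0 hS
  have hci0 : ∀ i, 0 ≤ c i := fun i => (hline.c0 i).1
  have hci : ∀ i, c i ≤ c0 := fun i => (hline.c0 i).2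
  have hci1 : ∀ i, c i ≤ 1 / 10 := fun i => (hci i).trans hc01
  set R : ℕ → ℝ := RR q al a c with hR
  -- steps of R
  have hR0 : R 0 = 0 := by rw [hR]; rfl
  have hRs : ∀ i, |R (i + 1) - R i| ≤ c0 / q := by
    intro i
    have h1 : R (i + 1) - R i = -(eF ((c i : ℂ) * ee (q * (al * (R i - a i)))) / (q * al)) := by
      rw [hR]; show RR q al a c i - _ - RR q al a c i = _; ring
    have h2 : |eF ((c i : ℂ) * ee (q * (al * (R i - a i))))| ≤ c i :=
      ((hpsi q (c i) hq (hci0 i) (hci1 i)).2 (al * (R i - a i))).2.2.2.2.2.2.2.1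
    rw [h1, abs_neg, abs_div, abs_of_pos (mul_pos hq1 hal0), div_le_div_iff₀ (mul_pos hq1 hal0) hq1]
    have h3 : |eF ((c i : ℂ) * ee (q * (al * (R i - a i))))| ≤ c0 := h2.trans (hci i)
    have h4 := mul_le_mul_of_nonneg_right h3 hq1.le
    have h5 : c0 * q ≤ c0 * (q * al) := by
      apply mul_le_mul_of_nonneg_left _ hc0
      nlinarith
    linarith
  have hRi : ∀ i : ℕ, |R i| ≤ i * (c0 / q) := by
    intro i
    induction i with
    | zero => rw [hR0]; simp
    | succ i ih =>
      have h1 := abs_add_le (R (i + 1) - R i) (R i)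
      rw [sub_add_cancel] at h1
      push_cast
      linarith [hRs i]
  have hRi' : ∀ i : ℕ, |R i| ≤ i / 10 := by
    intro i
    have h1 : (i : ℝ) * (c0 / q) ≤ i * (1 / 10) :=
      mul_le_mul_of_nonneg_left (by linarith) (Nat.cast_nonneg i)
    linarith [hRi i]
  -- growth of a
  have hgap : ∀ i t : ℕ, a i + 7 * t ≤ a (i + t) := by
    intro i t
    induction t with
    | zero => simp
    | succ t ih =>
      have h1 := hline.gap (i + t)
      rw [← add_assoc]
      push_cast
      linarith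
  have ha : ∀ i : ℕ, 3 + 7 * (i : ℝ) ≤ a i := by
    intro i
    have h1 := hgap 0 i
    rw [zero_add] at h1
    linarith [hline.a0]
  have hgap' : ∀ i j : ℕ, i ≤ j → a i + 7 * ((j : ℝ) - i) ≤ a j := by
    intro i j hij
    have h1 := hgap i (j - i)
    rw [Nat.add_sub_cancel' hij, Nat.cast_sub hij] at h1
    exact h1
  -- the window
  have hwin : ∀ k : ℕ, ∃ i : ℕ, (∀ j, i = j + 1 → a j + 13 / 5 ≤ R i + k / al) ∧
      R i + k / al ≤ a (i + 1) - 3 / 2 := by
    intro k
    have hkal : (k : ℝ) / al ≤ k := div_le_self (Nat.cast_nonneg k) hal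
    have hex : ∃ i : ℕ, R i + k / al ≤ a (i + 1) - 3 / 2 := by
      refine ⟨k, ?_⟩
      have h1 := ha (k + 1)
      push_cast at h1
      have h2 := (abs_le.1 (hRi' k)).2
      have h3 : (0 : ℝ) ≤ k := Nat.cast_nonneg k
      linarith
    classical
    refine ⟨Nat.find hex, ?_, Nat.find_spec hex⟩
    intro j hj
    have h1 : ¬ (R j + k / al ≤ a (j + 1) - 3 / 2) := Nat.find_min hex (by omega)
    rw [hj]
    have h2 := (abs_le.1 (hRs j)).1
    have h3 := hline.gap j
    push Not at h1
    linarith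
  -- the derivative of Psi
  have hder : ∀ (i : ℕ) (u : ℝ), |deriv (Psi q (c i)) u - 1| ≤ C1 * c0 := by
    intro i u
    have h1 := ((hpsi q (c i) hq (hci0 i) (hci1 i)).2 u).2.2.2.2.1
    exact h1.trans (mul_le_mul_of_nonneg_left (hci i) (by linarith))
  have hderpos : ∀ (i : ℕ) (u : ℝ), 0 < deriv (Psi q (c i)) u := by
    intro i u
    have := (abs_le.1 (hder i u)).1
    linarith
  -- factors
  have hww : ∀ i, ‖ww q a c i al‖ = 1 := fun i => norm_ee _
  have hfac : ∀ i, 0 < (1 - c i ^ 2) / ‖1 + (c i : ℂ) * ww q a c i al‖ ^ 2 := by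
    intro i
    have h1 := (abs_le.1 (norm_bounds (hci0 i) (hww i))).1
    have h2 := hci1 i
    have h3 := hci0 i
    apply div_pos
    · nlinarith
    · have : 0 < ‖1 + (c i : ℂ) * ww q a c i al‖ := by linarith
      positivity
  have hnorm : ∀ i, 0 < ‖1 + (c i : ℂ) * ww q a c i al‖ := by
    intro i
    have h1 := (abs_le.1 (norm_bounds (hci0 i) (hww i))).1
    have h2 := hci1 i
    linarith
  -- positivity of partial products
  have hpos : ∀ k : ℕ, 0 < ∏ j ∈ Finset.range k, (1 + deriv d (S j)) := by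
    intro k
    obtain ⟨i, h1, h2⟩ := hwin k
    rw [(horb' k i h1 h2).2]
    exact mul_pos (Finset.prod_pos (fun j _ => hfac j)) (hderpos i _)
  have hpos1 : ∀ k : ℕ, 0 < 1 + deriv d (S k) := by
    intro k
    have h1 := hpos (k + 1)
    rw [Finset.prod_range_succ] at h1
    exact (pos_iff_pos_of_mul_pos h1).1 (hpos k)
  -- the sum
  set k : ℕ := ⌊al * n⌋₊ with hk
  obtain ⟨i, hi1, hi2⟩ := hwin k
  have hsum : ∑ j ∈ Finset.range k, Real.log (1 + deriv d (S j)) =
      Lam q a c al (Finset.range i) +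
        Real.log (deriv (Psi q (c i)) (al * (R i - a i) + k)) := by
    rw [← Real.log_prod (fun j _ => (hpos1 j).ne'), (horb' k i hi1 hi2).2,
      Real.log_mul (Finset.prod_pos (fun j _ => hfac j)).ne' (hderpos i _).ne',
      Real.log_prod (fun j _ => (hfac j).ne')]
    congr 1
    unfold Lam
    apply Finset.sum_congr rfl
    intro j _
    have h1 := hci1 j
    have h2 := hci0 j
    rw [Real.log_div (by nlinarith) (by have := hnorm j; positivity), Real.log_pow]
    push_cast
    ring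
  have hlogder : |Real.log (deriv (Psi q (c i)) (al * (R i - a i) + k))| ≤ 2 * (C1 * c0) := by
    have h1 := hder i (al * (R i - a i) + k)
    have h2 := abs_log_le (h1.trans hC1c)
    linarith
  -- the floor
  have hkle : (k : ℝ) / al ≤ n := by
    rw [div_le_iff₀ hal0, mul_comm]
    exact Nat.floor_le (by positivity)
  have hkge : (n : ℝ) - 1 ≤ (k : ℝ) / al := by
    rw [le_div_iff₀ hal0]
    have h1 := Nat.lt_floor_add_one (al * n)
    rw [← hk] at h1
    nlinarith
  -- i ≤ n
  have hin : i ≤ n := by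
    rcases Nat.eq_zero_or_pos i with h | h
    · omega
    · obtain ⟨j, rfl⟩ : ∃ j, i = j + 1 := ⟨i - 1, by omega⟩
      have h1 := hi1 j rfl
      have h2 := ha j
      have h3 := (abs_le.1 (hRi' (j + 1))).2
      push_cast at h3
      have h4 : ((j + 1 : ℕ) : ℝ) ≤ n := by
        push_cast
        have h5 : (0 : ℝ) ≤ j := Nat.cast_nonneg j
        linarith
      exact_mod_cast h4
  have hicn : (i : ℝ) * (c0 / q) ≤ n * c0 / q := by
    rw [mul_div_assoc]
    exact mul_le_mul_of_nonneg_right (by exact_mod_cast hin) hcq0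
  -- the set of the centres below n
  have hexm : ∃ m : ℕ, (n : ℝ) ≤ a m := ⟨n, by
    have h1 := ha n
    have h2 : (0 : ℝ) ≤ n := Nat.cast_nonneg n
    linarith⟩
  classical
  set m : ℕ := Nat.find hexm with hm
  have hm1 : (n : ℝ) ≤ a m := Nat.find_spec hexm
  have hm2 : ∀ j, j < m → a j < n := fun j hj => not_le.1 (Nat.find_min hexm hj)
  have hmn : m ≤ n := Nat.find_min' hexm (by
    have h1 := ha n
    have h2 : (0 : ℝ) ≤ n := Nat.cast_nonneg n
    linarith)
  have hF : (Finset.range n).filter (fun i => a i < n) = Finset.range m := by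
    ext j
    rw [Finset.mem_filter, Finset.mem_range, Finset.mem_range]
    constructor
    · rintro ⟨_, h2⟩
      by_contra h3
      push Not at h3
      have h4 := hgap' m j h3
      have h5 : (m : ℝ) ≤ j := by exact_mod_cast h3
      linarith
    · intro h
      exact ⟨lt_of_lt_of_le h hmn, hm2 j h⟩
  rw [hF]
  -- comparison of i and m
  have hB := fun j => term_bound (w := ww q a c j al) (hci0 j) (hci j) hc01 (hww j)
  have hLam : |Lam q a c al (Finset.range i) - Lam q a c al (Finset.range m)| ≤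
      5 * c0 * (2 + n * c0 / q) := by
    have hnn : (0 : ℝ) ≤ n * c0 / q := by positivity
    rcases le_total i m with him | hmi
    · rw [abs_sub_comm]
      have h1 := range_diff _ (5 * c0) hB i m him
      have h2 : (m : ℝ) - i ≤ 2 + n * c0 / q := by
        rcases Nat.lt_or_ge (i + 1) m with h | h
        · obtain ⟨j, hj⟩ : ∃ j, m = j + 1 := ⟨m - 1, by omega⟩
          have h3 := hm2 j (by omega)
          have h4 := hgap' (i + 1) j (by omega)
          have h5 := (abs_le.1 (hRi i)).1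
          rw [hj]
          push_cast at h4 ⊢
          have h6 : (i : ℝ) + 1 ≤ j := by
            have : i + 1 ≤ j := by omega
            exact_mod_cast this
          nlinarith
        · have h3 : (m : ℝ) ≤ i + 1 := by exact_mod_cast h
          linarith
      exact h1.trans (mul_le_mul_of_nonneg_left h2 (by linarith))
    · have h1 := range_diff _ (5 * c0) hB m i hmi
      have h2 : (i : ℝ) - m ≤ 2 + n * c0 / q := by
        rcases Nat.lt_or_ge m i with h | h
        · obtain ⟨j, hj⟩ : ∃ j, i = j + 1 := ⟨i - 1, by omega⟩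
          have h3 := hi1 j hj
          have h4 := hgap' m j (by omega)
          have h5 := (abs_le.1 (hRi i)).2
          have h6 : (i : ℝ) = j + 1 := by rw [hj]; push_cast; ring
          have h7 : (m : ℝ) ≤ j := by
            have : m ≤ j := by omega
            exact_mod_cast this
          linarith
        · have h3 : (i : ℝ) ≤ m := by exact_mod_cast h
          linarith
      exact h1.trans (mul_le_mul_of_nonneg_left h2 (by linarith))
  rw [hsum]
  have hfin : Lam q a c al (Finset.range i) +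
        Real.log (deriv (Psi q (c i)) (al * (R i - a i) + k)) - Lam q a c al (Finset.range m) =
      (Lam q a c al (Finset.range i) - Lam q a c al (Finset.range m)) +
        Real.log (deriv (Psi q (c i)) (al * (R i - a i) + k)) := by ring
  rw [hfin]
  have h1 := abs_add_le (Lam q a c al (Finset.range i) - Lam q a c al (Finset.range m))
    (Real.log (deriv (Psi q (c i)) (al * (R i - a i) + k)))
  have hnn : (0 : ℝ) ≤ n * c0 / q := by positivity
  have h2 : 2 * (C1 * c0) + 5 * c0 * (2 + n * c0 / q) ≤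
      (2 * C1 + 10) * c0 * (1 + n * c0 / q) := by
    have h3 : 0 ≤ C1 * c0 := by nlinarith
    nlinarith [mul_nonneg h3 hnn, mul_nonneg hc0 hnn]
  linarith

end Pool.Agent.Helper64.TOF
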